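import Pool.Agent.H.MP_374aea_al.Tree

set_option autoImplicit false

namespace Pool.Agent.Results.MP_374aea_al.No

/-- A finitely generated contracting self-similar group with no finite L-presentation `⟨S | Q | Φ | R⟩`. -/
theorem result : ∃ d : ℕ, 2 ≤ d ∧ ∃ G : Subgroup (Equiv.Perm (List (Fin d))),
    Group.FG G ∧
    (∀ g ∈ G, g [] = []) ∧
    (∀ g ∈ G, ∀ x : Fin d, ∃ y : Fin d, ∃ h ∈ G, ∀ w : List (Fin d), g (x :: w) = y :: h w) ∧
    (∃ N : Finset (Equiv.Perm (List (Fin d))), (∀ h ∈ N, h ∈ G) ∧ ∀ g ∈ G, ∃ k : ℕ, ∀ v : List (Fin d),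
        k ≤ v.length → ∃ h ∈ N, ∀ w : List (Fin d), g (v ++ w) = g v ++ h w) ∧
    ∀ (m : ℕ) (Q R : Finset (FreeGroup (Fin m))) (Φ : Finset (Monoid.End (FreeGroup (Fin m)))),
      IsEmpty (G ≃* PresentedGroup ((Q : Set (FreeGroup (Fin m))) ∪
        {x | ∃ φ ∈ Submonoid.closure (Φ : Set (Monoid.End (FreeGroup (Fin m)))), ∃ r ∈ R, x = φ r})) :=
  H.MP_374aea_al.main

end Pool.Agent.Results.MP_374aea_al.No
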